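import Mathlib
import Pool.Agent.MP_d56274_gt.Tri

namespace Pool.Agent.Results.MP_d56274_gt.HalfDisc

open Pool.Agent.MP_d56274_gt Real

/-- The exact range of sector angles in which the half disc through the origin is isoperimetric. -/
theorem result (p θ₀ ρ : ℝ) (hp : 0 < p) (hθ : 0 < θ₀) (hρ : 0 < ρ) :
    IsIso p θ₀ {z | z ∈ sector (π / 2) ∧ z.1 < ρ * cos z.2} ↔
      π * (p + 2) / (2 * p + 2) ≤ θ₀ :=
  (Tri.trichotomy p θ₀ ρ hp hθ hρ).2.2

end Pool.Agent.Results.MP_d56274_gt.HalfDisc
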