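import Mathlib
import Pool.Agent.MP_d56274_gt.Tri

namespace Pool.Agent.Results.MP_d56274_gt.Unduloid

open Pool.Agent.MP_d56274_gt Real

/-- The exact range of sector angles in which an unduloid bounds an isoperimetric region. -/
theorem result (p θ₀ ρ : ℝ) (hp : 0 < p) (hθ : 0 < θ₀) (hρ : 0 < ρ) :
    (∃ R : ℝ, 1 < R ∧ undTau p R 0 = θ₀ ∧
        IsIso p θ₀ {z | z ∈ sector θ₀ ∧ z.2 < undTau p R (z.1 / ρ)}) ↔
      π / √(p + 1) < θ₀ ∧ θ₀ < π * (p + 2) / (2 * p + 2) :=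
  (Tri.trichotomy p θ₀ ρ hp hθ hρ).2.1

end Pool.Agent.Results.MP_d56274_gt.Unduloid
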